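import Mathlib

set_option autoImplicit false

namespace Pool.Agent.Results.MP_407f73_al.DualNotFree

/-- A Mealy automaton with set of states `Q`, alphabet `A`, transition function `δ` and
output function `out`. -/
structure Mealy (Q A : Type) where
  /-- transition function -/
  δ : Q → A → Q
  /-- output function -/
  out : Q → A → A

namespace Mealy

variable {Q A : Type}

/-- The action of a state on finite words:
`q ∘ (a₁ a₂ … aₙ) = out(q,a₁) (δ(q,a₁) ∘ (a₂ … aₙ))`. -/
def act (M : Mealy Q A) : Q → Function.End (List A)
  | _, [] => []
  | q, a :: w => M.out q a :: M.act (M.δ q a) w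

/-- The automaton semigroup: the semigroup of maps `A* → A*` generated under composition by the
maps `q ∘ (·)`, `q ∈ Q`. -/
def semigroup (M : Mealy Q A) : Subsemigroup (Function.End (List A)) :=
  Subsemigroup.closure (Set.range M.act)

/-- The dual automaton: states and letters are exchanged. -/
def dual (M : Mealy Q A) : Mealy A Q where
  δ := fun a q => M.out q a
  out := fun a q => M.δ q a

/-- Transitivity on the tree: for all `n ≥ 1` and all words `u, v` of length `n` some element of
the automaton semigroup maps `u` to `v`. -/
def IsTransitive (M : Mealy Q A) : Prop :=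
  ∀ n : ℕ, 1 ≤ n → ∀ u v : List A, u.length = n → v.length = n →
    ∃ s ∈ M.semigroup, s u = v

/-- The automaton semigroup is freely generated by the maps `q ∘ (·)`, `q ∈ Q`: distinct
non-empty words over `Q` induce distinct transformations. -/
def IsFreelyGenerated (M : Mealy Q A) : Prop :=
  Function.Injective (FreeSemigroup.lift M.act : FreeSemigroup Q →ₙ* Function.End (List A))

end Mealy

/-! ### The automaton -/

/-- The four states. -/
inductive St : Type
  | e | a | b | c
  deriving DecidableEq

instance : Fintype St where
  elems := {.e, .a, .b, .c}
  complete := by intro x; cases x <;> decide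

/-- The letters: pairs `(s, x)` of bits. -/
abbrev Lt : Type := Bool × Bool

/-- The transition function. -/
def tr : St → Lt → St
  | .e, _ => .e
  | .a, (false, _) => .e
  | .a, (true, _) => .a
  | .b, (false, _) => .e
  | .b, (true, _) => .b
  | .c, (false, false) => .a
  | .c, (false, true) => .b
  | .c, (true, false) => .e
  | .c, (true, true) => .a

/-- The output function. -/
def ou : St → Lt → Lt
  | .e, l => l
  | .a, (s, x) => (!s, x)
  | .b, (false, x) => (false, !x)
  | .b, (true, x) => (true, x)
  | .c, l => l

/-- The automaton. -/
def M : Mealy St Lt := ⟨tr, ou⟩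

open Mealy

theorem act_nil (q : St) : M.act q [] = [] := by
  cases q <;> rfl

theorem act_cons (q : St) (l : Lt) (w : List Lt) :
    M.act q (l :: w) = ou q l :: M.act (tr q l) w := rfl

theorem act_length (q : St) (w : List Lt) : (M.act q w).length = w.length := by
  induction w generalizing q with
  | nil => rw [act_nil]
  | cons l w ih => simp [act_cons, ih]

theorem act_e (w : List Lt) : M.act .e w = w := by
  induction w with
  | nil => rfl
  | cons l w ih =>
    rw [act_cons]
    show l :: M.act .e w = l :: w
    rw [ih]

theorem act_a_false (x : Bool) (w : List Lt) :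
    M.act .a ((false, x) :: w) = (true, x) :: w := by
  rw [act_cons]
  show (true, x) :: M.act .e w = (true, x) :: w
  rw [act_e]

theorem act_a_true (x : Bool) (w : List Lt) :
    M.act .a ((true, x) :: w) = (false, x) :: M.act .a w := rfl

theorem act_b_false (x : Bool) (w : List Lt) :
    M.act .b ((false, x) :: w) = (false, !x) :: w := by
  rw [act_cons]
  show (false, !x) :: M.act .e w = (false, !x) :: w
  rw [act_e]

theorem act_b_true (x : Bool) (w : List Lt) :
    M.act .b ((true, x) :: w) = (true, x) :: M.act .b w := rfl

/-- every state acts bijectively on the alphabet -/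
theorem ou_bijective (q : St) : Function.Bijective (ou q) := by
  cases q <;> decide

theorem act_injective_words (q : St) : Function.Injective (M.act q) := by
  intro u
  induction u generalizing q with
  | nil =>
    intro v h
    have := congrArg List.length h
    rw [act_length, act_length] at this
    exact (List.length_eq_zero_iff.mp this.symm).symm
  | cons l u ih =>
    intro v h
    cases v with
    | nil =>
      have := congrArg List.length h
      rw [act_length, act_length] at this
      simp at this
    | cons l' v =>
      rw [act_cons, act_cons, List.cons.injEq] at h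
      have h1 := (ou_bijective q).1 h.1
      subst h1
      rw [ih _ h.2]

theorem act_surjective_words (q : St) (v : List Lt) : ∃ u, M.act q u = v := by
  induction v generalizing q with
  | nil => exact ⟨[], act_nil q⟩
  | cons l v ih =>
    obtain ⟨l', hl'⟩ := (ou_bijective q).2 l
    obtain ⟨u, hu⟩ := ih (tr q l')
    exact ⟨l' :: u, by rw [act_cons, hl', hu]⟩

theorem act_bijective (q : St) : Function.Bijective (M.act q) :=
  ⟨act_injective_words q, act_surjective_words q⟩

/-- one step with the state `a` or `b` -/
def Step (u v : List Lt) : Prop := v = M.act .a u ∨ v = M.act .b u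

/-- reachability -/
def Reach : List Lt → List Lt → Prop := Relation.ReflTransGen Step

theorem reach_a (u : List Lt) : Reach u (M.act .a u) := Relation.ReflTransGen.single (Or.inl rfl)

theorem reach_b (u : List Lt) : Reach u (M.act .b u) := Relation.ReflTransGen.single (Or.inr rfl)

theorem lift_step {u v : List Lt} (x : Bool) (h : Step u v) :
    Reach ((true, x) :: u) ((true, x) :: v) := by
  rcases h with h | h
  · subst h
    have h1 := reach_a ((true, x) :: u)
    rw [act_a_true] at h1
    have h2 := reach_a ((false, x) :: M.act .a u)
    rw [act_a_false] at h2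
    exact h1.trans h2
  · subst h
    have h1 := reach_b ((true, x) :: u)
    rw [act_b_true] at h1
    exact h1

theorem lift_reach {u v : List Lt} (x : Bool) (h : Reach u v) :
    Reach ((true, x) :: u) ((true, x) :: v) := by
  induction h with
  | refl => exact Relation.ReflTransGen.refl
  | tail _ h2 ih => exact ih.trans (lift_step x h2)

/-- one can bring the first letter into the form `(true, y)` -/
theorem fix_first (l : Lt) (u : List Lt) (y : Bool) :
    ∃ u' : List Lt, u'.length = u.length ∧ Reach (l :: u) ((true, y) :: u') := by
  obtain ⟨s, x⟩ := l
  -- first make `s = false`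
  have h1 : ∃ u' : List Lt, u'.length = u.length ∧ Reach ((s, x) :: u) ((false, x) :: u') := by
    cases s with
    | false => exact ⟨u, rfl, Relation.ReflTransGen.refl⟩
    | true =>
      refine ⟨M.act .a u, act_length _ _, ?_⟩
      have := reach_a ((true, x) :: u)
      rwa [act_a_true] at this
  obtain ⟨u1, hl, hr⟩ := h1
  have h2 : Reach ((false, x) :: u1) ((false, y) :: u1) := by
    by_cases hxy : x = y
    · subst hxy; exact Relation.ReflTransGen.refl
    · have := reach_b ((false, x) :: u1)
      rw [act_b_false] at this
      have hy : y = !x := by
        cases x <;> cases y <;> simp_all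
      rw [hy]; exact this
  have h3 : Reach ((false, y) :: u1) ((true, y) :: u1) := by
    have := reach_a ((false, y) :: u1)
    rwa [act_a_false] at this
  exact ⟨u1, hl, (hr.trans h2).trans h3⟩

theorem reach_all : ∀ u v : List Lt, u.length = v.length → Reach u v := by
  intro u
  induction hn : u.length generalizing u with
  | zero =>
    intro v hv
    rw [List.length_eq_zero_iff.mp hn, List.length_eq_zero_iff.mp hv.symm]
    exact Relation.ReflTransGen.refl
  | succ n ih =>
    intro v hv
    cases u with
    | nil => simp at hn
    | cons l u =>
      cases v with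
      | nil => simp at hv
      | cons l' v =>
        obtain ⟨t, y⟩ := l'
        simp only [List.length_cons, Nat.add_right_cancel_iff] at hn hv
        obtain ⟨u', hu', hr⟩ := fix_first l u y
        cases t with
        | true =>
          exact hr.trans (lift_reach y (ih u' (by rw [hu', hn]) v hv))
        | false =>
          obtain ⟨w, hw⟩ := act_surjective_words .a v
          have hwl : n = w.length := by
            rw [hv, ← hw, act_length]
          have h1 := lift_reach y (ih u' (by rw [hu', hn]) w hwl)
          have h2 := reach_a ((true, y) :: w)
          rw [act_a_true, hw] at h2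
          exact (hr.trans h1).trans h2

theorem reach_semigroup {u v : List Lt} (h : Reach u v) : ∃ s ∈ M.semigroup, s u = v := by
  induction h with
  | refl => exact ⟨M.act .e, Subsemigroup.subset_closure ⟨_, rfl⟩, act_e u⟩
  | tail _ h2 ih =>
    obtain ⟨s, hs, hsu⟩ := ih
    rcases h2 with h2 | h2
    · refine ⟨M.act .a * s, M.semigroup.mul_mem (Subsemigroup.subset_closure ⟨_, rfl⟩) hs, ?_⟩
      show M.act .a (s u) = _
      rw [hsu, h2]
    · refine ⟨M.act .b * s, M.semigroup.mul_mem (Subsemigroup.subset_closure ⟨_, rfl⟩) hs, ?_⟩
      show M.act .b (s u) = _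
      rw [hsu, h2]

theorem M_transitive : M.IsTransitive := by
  intro n _ u v hu hv
  exact reach_semigroup (reach_all u v (by rw [hu, hv]))

theorem act_inj_states : Function.Injective M.act := by
  intro p q h
  have h1 := congrFun h [(false, false), (false, false)]
  revert h1
  cases p <;> cases q <;> decide

theorem dual_cons (l : Lt) (q : St) (w : List St) :
    M.dual.act l (q :: w) = tr q l :: M.dual.act (ou q l) w := rfl

theorem dual_inj_letters : Function.Injective M.dual.act := by
  intro p q h
  have h1 := congrFun h [.c]
  have h2 := congrFun h [.a]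
  revert h1 h2
  obtain ⟨p1, p2⟩ := p
  obtain ⟨q1, q2⟩ := q
  cases p1 <;> cases p2 <;> cases q1 <;> cases q2 <;> decide

/-- no section of a state is the state `c` -/
theorem tr_ne_c (q : St) (l : Lt) : tr q l ≠ .c := by
  obtain ⟨s, x⟩ := l
  cases q <;> cases s <;> cases x <;> decide

/-- on words without the state `c` the second bit of the acting letter is irrelevant -/
theorem dual_eq_of_fst (w : List St) : (∀ q ∈ w, q ≠ .c) → ∀ s x y : Bool,
    M.dual.act (s, x) w = M.dual.act (s, y) w := by
  induction w with
  | nil => intro _ s x y; rfl
  | cons q w ih =>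
    intro hw s x y
    rw [dual_cons, dual_cons]
    have hw' : ∀ q ∈ w, q ≠ .c := fun q hq => hw q (List.mem_cons_of_mem _ hq)
    have hq : q ≠ .c := hw q List.mem_cons_self
    have h1 : tr q (s, x) = tr q (s, y) := by
      cases q <;> cases s <;> first | rfl | exact absurd rfl hq
    have h2 : (ou q (s, x)).1 = (ou q (s, y)).1 := by
      cases q <;> cases s <;> rfl
    have h3 : ou q (s, x) = ((ou q (s, x)).1, (ou q (s, x)).2) := rfl
    have h4 : ou q (s, y) = ((ou q (s, x)).1, (ou q (s, y)).2) := by rw [h2]
    rw [h1, h3, h4]
    rw [ih hw' _ (ou q (s, x)).2 (ou q (s, y)).2]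

theorem dual_no_c (l : Lt) (w : List St) : ∀ q ∈ M.dual.act l w, q ≠ .c := by
  induction w generalizing l with
  | nil => intro q hq; simp [Mealy.act] at hq
  | cons p w ih =>
    intro q hq
    rw [dual_cons] at hq
    rcases List.mem_cons.mp hq with h | h
    · rw [h]; exact tr_ne_c _ _
    · exact ih _ q h

theorem dual_relation (l : Lt) (s x y : Bool) :
    M.dual.act (s, x) * M.dual.act l = M.dual.act (s, y) * M.dual.act l := by
  funext w
  exact dual_eq_of_fst _ (dual_no_c l w) s x y

theorem freeSemigroup_mul_right_cancel {X : Type*} (p q r : FreeSemigroup X)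
    (h : p * r = q * r) : p = q := by
  obtain ⟨p1, p2⟩ := p
  obtain ⟨q1, q2⟩ := q
  obtain ⟨r1, r2⟩ := r
  have h1 := congrArg FreeSemigroup.head h
  have h2 := congrArg FreeSemigroup.tail h
  simp only [FreeSemigroup.head_mul, FreeSemigroup.tail_mul] at h1 h2
  have h3 := List.append_cancel_right h2
  rw [FreeSemigroup.mk.injEq]
  exact ⟨h1, h3⟩

theorem not_freely : ¬ M.dual.IsFreelyGenerated := by
  intro h
  have h1 : (FreeSemigroup.lift M.dual.act : FreeSemigroup Lt →ₙ* Function.End (List St))
        (FreeSemigroup.of (false, false) * FreeSemigroup.of (false, false)) =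
      (FreeSemigroup.lift M.dual.act : FreeSemigroup Lt →ₙ* Function.End (List St))
        (FreeSemigroup.of (false, true) * FreeSemigroup.of (false, false)) := by
    rw [map_mul, map_mul, FreeSemigroup.lift_of, FreeSemigroup.lift_of]
    exact dual_relation _ _ _ _
  have h2 := freeSemigroup_mul_right_cancel _ _ _ (h h1)
  have h3 : ((false, false) : Lt) = (false, true) := congrArg FreeSemigroup.head h2
  revert h3
  decide

theorem not_iso (X : Type) : IsEmpty (M.dual.semigroup ≃* FreeSemigroup X) := by
  refine ⟨fun φ => ?_⟩
  have hm : ∀ l : Lt, M.dual.act l ∈ M.dual.semigroup := fun l =>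
    Subsemigroup.subset_closure ⟨l, rfl⟩
  let z : Lt → M.dual.semigroup := fun l => ⟨M.dual.act l, hm l⟩
  have h1 : z (false, false) * z (false, false) = z (false, true) * z (false, false) :=
    Subtype.ext (dual_relation _ _ _ _)
  have h2 := congrArg φ h1
  rw [map_mul, map_mul] at h2
  have h3 := φ.injective (freeSemigroup_mul_right_cancel _ _ _ h2)
  have h4 := dual_inj_letters (congrArg Subtype.val h3)
  revert h4
  decide

/-- There is a finite Mealy automaton with at least two letters whose automaton semigroup is
transitive on the tree while the semigroup of the dual automaton is not freely generated by the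
letters.  The automaton moreover can be chosen such that all its states act by bijections
(it is invertible), distinct states act differently, distinct letters act differently in the dual,
and the semigroup of the dual is not even isomorphic to any free semigroup. -/
theorem result :
    ∃ (Q A : Type) (_ : Fintype Q) (_ : Fintype A) (_ : Nonempty Q) (M : Mealy Q A),
      2 ≤ Fintype.card A ∧ M.IsTransitive ∧ ¬ M.dual.IsFreelyGenerated ∧
      (∀ q : Q, Function.Bijective (M.out q)) ∧
      (∀ q : Q, Function.Bijective (M.act q)) ∧
      Function.Injective M.act ∧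
      Function.Injective M.dual.act ∧
      ∀ X : Type, IsEmpty (M.dual.semigroup ≃* FreeSemigroup X) :=
  ⟨St, Lt, inferInstance, inferInstance, ⟨.e⟩, M, by decide, M_transitive, not_freely,
    ou_bijective, act_bijective, act_inj_states, dual_inj_letters, not_iso⟩

end Pool.Agent.Results.MP_407f73_al.DualNotFree
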